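import Mathlib
import Pool.Agent.Lib.MP_629379_al.GroupPart

/-!
# Maximal tori inside a matrix-product subvariety of `GL_n^r`

We work with the group of `K`-points of `GL_n^r` over an algebraically closed field `K` of
characteristic zero, in the classical language (varieties over `K` are identified with their
`K`-points, morphisms are maps whose coordinates are regular functions).
-/

namespace Pool.Agent.Results.MP_629379_al.InfinitelyManyOrbits

open Matrix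

universe u

section Definitions

variable (K : Type u) [Field K] (n r : ℕ)

/-- The group of `K`-points of `GL_n^r` (product of `r` copies of `GL_n`). -/
abbrev Grp := Fin r → GL (Fin n) K

/-- Index set of the coordinate functions of the affine variety `GL_n^r`: a triple `(k, i, j)`
for the `(i, j)` entry of the `k`-th matrix, and an index `k` for the inverse of the determinant
of the `k`-th matrix. -/
abbrev Idx := (Fin r × Fin n × Fin n) ⊕ Fin r

variable {K n r}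

/-- The coordinates of a point of `GL_n^r`. -/
def coord (h : Grp K n r) : Idx n r → K :=
  Sum.elim (fun p => (h p.1 : Matrix (Fin n) (Fin n) K) p.2.1 p.2.2)
    (fun k => ((h k : Matrix (Fin n) (Fin n) K).det)⁻¹)

/-- Regular functions on `GL_n^r`: polynomials in the matrix entries and the inverses of the
determinants. -/
def IsRegular (f : Grp K n r → K) : Prop :=
  ∃ P : MvPolynomial (Idx n r) K, ∀ h, f h = MvPolynomial.eval (coord h) P

/-- Automorphisms of `GL_n^r` as an algebraic group: group automorphisms such that the map and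
its inverse are morphisms of varieties. -/
def IsAlgAut (σ : Grp K n r ≃* Grp K n r) : Prop :=
  (∀ k i j, IsRegular fun h => (σ h k : Matrix (Fin n) (Fin n) K) i j) ∧
  (∀ k i j, IsRegular fun h => (σ.symm h k : Matrix (Fin n) (Fin n) K) i j)

/-- Zariski closed subsets of `GL_n^r`: common zero sets of regular functions. -/
def IsZariskiClosed (Z : Set (Grp K n r)) : Prop :=
  ∃ S : Set (MvPolynomial (Idx n r) K), Z = {h | ∀ P ∈ S, MvPolynomial.eval (coord h) P = 0}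

/-- The coordinates `t_a`, `t_a⁻¹` of a point of `G_m^d`. -/
def torusCoord {d : ℕ} (t : Fin d → Kˣ) : Fin d ⊕ Fin d → K :=
  Sum.elim (fun a => (t a : K)) (fun a => (((t a)⁻¹ : Kˣ) : K))

/-- `T` is a torus: a closed subgroup of `GL_n^r` which is isomorphic to `G_m^d` for some
`d ≥ 0`, by a group isomorphism `φ` whose coordinates are Laurent polynomials and such that the
coordinates of the inverse are restrictions to `T` of regular functions on `GL_n^r`. -/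
def IsTorus (T : Subgroup (Grp K n r)) : Prop :=
  IsZariskiClosed (T : Set (Grp K n r)) ∧
  ∃ (d : ℕ) (φ : (Fin d → Kˣ) ≃* T),
    (∀ k i j, ∃ P : MvPolynomial (Fin d ⊕ Fin d) K, ∀ t,
      ((φ t : Grp K n r) k : Matrix (Fin n) (Fin n) K) i j =
        MvPolynomial.eval (torusCoord t) P) ∧
    (∀ a, ∃ f : Grp K n r → K, IsRegular f ∧
      ∀ h : T, ((φ.symm h a : Kˣ) : K) = f (h : Grp K n r))

/-- The subvariety `X = {(h_1, …, h_r) : M_1 h_1 M_2 h_2 ⋯ M_r h_r M_{r+1} = 1}`. -/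
def varX (M : Fin (r + 1) → GL (Fin n) K) : Set (Grp K n r) :=
  {h | (List.ofFn fun i : Fin r => M i.castSucc * h i).prod * M (Fin.last r) = 1}

/-- `T` is a maximal torus lying in `X`: it is a torus contained in `X` and no torus contained
in `X` properly contains it. -/
def IsMaxTorusIn (X : Set (Grp K n r)) (T : Subgroup (Grp K n r)) : Prop :=
  IsTorus T ∧ (T : Set (Grp K n r)) ⊆ X ∧
  ∀ T' : Subgroup (Grp K n r), IsTorus T' → (T' : Set (Grp K n r)) ⊆ X → T ≤ T' → T' = T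

/-- The orbit of `T` under the group `H` of all automorphisms `σ` of the algebraic group
`GL_n^r` with `σ(X) = X`. -/
def orbitOf (X : Set (Grp K n r)) (T : Subgroup (Grp K n r)) : Set (Subgroup (Grp K n r)) :=
  {T' | ∃ σ : Grp K n r ≃* Grp K n r, IsAlgAut σ ∧ σ '' X = X ∧ T' = T.map σ.toMonoidHom}

/-- The set of all `H`-orbits of maximal tori lying in `X`. -/
def maxTorusOrbits (X : Set (Grp K n r)) : Set (Set (Subgroup (Grp K n r))) :=
  {O | ∃ T, IsMaxTorusIn X T ∧ O = orbitOf X T}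

/-- A matrix in `GL_n(K)` is semisimple if it is diagonalizable. -/
def IsSemisimpleMat (M : GL (Fin n) K) : Prop :=
  ∃ (P : GL (Fin n) K) (d : Fin n → K),
    (M : Matrix (Fin n) (Fin n) K) = P * Matrix.diagonal d * (P⁻¹ : GL (Fin n) K)

end Definitions

section Regular

variable {K : Type u} [Field K] {n r : ℕ}

theorem regular_entry (k : Fin r) (i j : Fin n) :
    IsRegular (K := K) fun h : Grp K n r => (h k : Matrix (Fin n) (Fin n) K) i j :=
  ⟨MvPolynomial.X (Sum.inl (k, i, j)), fun h => by simp [coord]⟩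

theorem regular_const (c : K) : IsRegular fun _ : Grp K n r => c :=
  ⟨MvPolynomial.C c, fun h => by simp⟩

theorem regular_add {f g : Grp K n r → K} (hf : IsRegular f) (hg : IsRegular g) :
    IsRegular fun h => f h + g h := by
  obtain ⟨P, hP⟩ := hf
  obtain ⟨Q, hQ⟩ := hg
  exact ⟨P + Q, fun h => by simp only [hP, hQ, map_add]⟩

theorem regular_mul {f g : Grp K n r → K} (hf : IsRegular f) (hg : IsRegular g) :
    IsRegular fun h => f h * g h := by
  obtain ⟨P, hP⟩ := hf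
  obtain ⟨Q, hQ⟩ := hg
  exact ⟨P * Q, fun h => by simp only [hP, hQ, map_mul]⟩

theorem regular_sub {f g : Grp K n r → K} (hf : IsRegular f) (hg : IsRegular g) :
    IsRegular fun h => f h - g h := by
  obtain ⟨P, hP⟩ := hf
  obtain ⟨Q, hQ⟩ := hg
  exact ⟨P - Q, fun h => by simp only [hP, hQ, map_sub]⟩

theorem closed_zero {f : Grp K n r → K} (hf : IsRegular f) : IsZariskiClosed {h | f h = 0} := by
  obtain ⟨P, hP⟩ := hf
  refine ⟨{P}, ?_⟩
  ext h
  simp [hP]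

theorem closed_inter {Z₁ Z₂ : Set (Grp K n r)} (h₁ : IsZariskiClosed Z₁)
    (h₂ : IsZariskiClosed Z₂) : IsZariskiClosed (Z₁ ∩ Z₂) := by
  obtain ⟨S₁, rfl⟩ := h₁
  obtain ⟨S₂, rfl⟩ := h₂
  refine ⟨S₁ ∪ S₂, ?_⟩
  ext h
  constructor
  · rintro ⟨a, b⟩ P (hP | hP)
    · exact a P hP
    · exact b P hP
  · intro a
    exact ⟨fun P hP => a P (Or.inl hP), fun P hP => a P (Or.inr hP)⟩

theorem isAlgAut_refl : IsAlgAut (MulEquiv.refl (Grp K n r)) :=
  ⟨fun k i j => regular_entry k i j, fun k i j => regular_entry k i j⟩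

end Regular

section Construction

variable {K : Type u} [Field K] [CharZero K]

/-- The matrices of the torus commuting with `[[0, ζ], [ζ⁻¹, 0]]`. -/
def mm (ζ : Kˣ) (s t : K) : Matrix (Fin 2) (Fin 2) K :=
  !![(s + t) / 2, (ζ : K) * ((s - t) / 2); (ζ : K)⁻¹ * ((s - t) / 2), (s + t) / 2]

theorem mm_mul (ζ : Kˣ) (s t s' t' : K) : mm ζ s t * mm ζ s' t' = mm ζ (s * s') (t * t') := by
  have hζ : (ζ : K) ≠ 0 := ζ.ne_zero
  ext i j
  fin_cases i <;> fin_cases j <;> simp [mm, Matrix.mul_apply, Fin.sum_univ_two] <;>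
    field_simp <;> ring

theorem mm_one (ζ : Kˣ) : mm ζ (1 : K) 1 = 1 := by
  ext i j
  fin_cases i <;> fin_cases j <;> simp [mm]

/-- `mm` as an element of `GL_2(K)`. -/
def mU (ζ : Kˣ) (s t : Kˣ) : GL (Fin 2) K where
  val := mm ζ s t
  inv := mm ζ ((s⁻¹ : Kˣ) : K) ((t⁻¹ : Kˣ) : K)
  val_inv := by rw [mm_mul]; simp [mm_one]
  inv_val := by rw [mm_mul]; simp [mm_one]

theorem mU_val (ζ s t : Kˣ) : ((mU ζ s t : GL (Fin 2) K) : Matrix (Fin 2) (Fin 2) K) = mm ζ s t :=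
  rfl

theorem mU_mul (ζ s t s' t' : Kˣ) : mU ζ s t * mU ζ s' t' = mU ζ (s * s') (t * t') := by
  apply Units.ext
  rw [Units.val_mul, mU_val, mU_val, mU_val, mm_mul]
  simp

theorem mU_one (ζ : Kˣ) : mU ζ (1 : Kˣ) 1 = 1 := by
  apply Units.ext
  rw [mU_val]
  simp [mm_one]

theorem mU_scalar (ζ ζ' z : Kˣ) : mU ζ z z = mU ζ' z z := by
  apply Units.ext
  rw [mU_val, mU_val]
  simp [mm]

theorem mU_inv (ζ s t : Kˣ) : (mU ζ s t)⁻¹ = mU ζ s⁻¹ t⁻¹ := by
  apply inv_eq_of_mul_eq_one_right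
  rw [mU_mul]
  simp [mU_one]

/-- The parametrisation of the torus `T ζ`. -/
def phi (ζ : Kˣ) : (Fin 5 → Kˣ) →* Grp K 2 4 where
  toFun t := ![mU 1 (t 0) (t 1), mU ζ (t 2) (t 3), mU ζ (t 4 * (t 2)⁻¹) (t 4 * (t 3)⁻¹),
    mU 1 ((t 4)⁻¹ * (t 0)⁻¹) ((t 4)⁻¹ * (t 1)⁻¹)]
  map_one' := by
    funext i
    fin_cases i <;> simp [mU_one]
  map_mul' x y := by
    have e1 : ∀ a b c d : Kˣ, a * b * (c * d)⁻¹ = a * c⁻¹ * (b * d⁻¹) := by
      intro a b c d
      rw [mul_inv, mul_mul_mul_comm]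
    have e2 : ∀ a b c d : Kˣ, (a * b)⁻¹ * (c * d)⁻¹ = a⁻¹ * c⁻¹ * (b⁻¹ * d⁻¹) := by
      intro a b c d
      rw [mul_inv, mul_inv, mul_mul_mul_comm]
    funext i
    fin_cases i
    · change mU 1 (x 0 * y 0) (x 1 * y 1) = mU 1 (x 0) (x 1) * mU 1 (y 0) (y 1)
      rw [mU_mul]
    · change mU ζ (x 2 * y 2) (x 3 * y 3) = mU ζ (x 2) (x 3) * mU ζ (y 2) (y 3)
      rw [mU_mul]
    · change mU ζ (x 4 * y 4 * (x 2 * y 2)⁻¹) (x 4 * y 4 * (x 3 * y 3)⁻¹) =
        mU ζ (x 4 * (x 2)⁻¹) (x 4 * (x 3)⁻¹) * mU ζ (y 4 * (y 2)⁻¹) (y 4 * (y 3)⁻¹)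
      rw [mU_mul, e1, e1]
    · change mU 1 ((x 4 * y 4)⁻¹ * (x 0 * y 0)⁻¹) ((x 4 * y 4)⁻¹ * (x 1 * y 1)⁻¹) =
        mU 1 ((x 4)⁻¹ * (x 0)⁻¹) ((x 4)⁻¹ * (x 1)⁻¹) *
          mU 1 ((y 4)⁻¹ * (y 0)⁻¹) ((y 4)⁻¹ * (y 1)⁻¹)
      rw [mU_mul, e2, e2]

theorem phi_zero (ζ : Kˣ) (t : Fin 5 → Kˣ) : phi ζ t 0 = mU 1 (t 0) (t 1) := rfl
theorem phi_one (ζ : Kˣ) (t : Fin 5 → Kˣ) : phi ζ t 1 = mU ζ (t 2) (t 3) := rfl
theorem phi_two (ζ : Kˣ) (t : Fin 5 → Kˣ) :
    phi ζ t 2 = mU ζ (t 4 * (t 2)⁻¹) (t 4 * (t 3)⁻¹) := rfl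
theorem phi_three (ζ : Kˣ) (t : Fin 5 → Kˣ) :
    phi ζ t 3 = mU 1 ((t 4)⁻¹ * (t 0)⁻¹) ((t 4)⁻¹ * (t 1)⁻¹) := rfl

/-- The torus `T ζ = {(a, b, z b⁻¹, z⁻¹ a⁻¹)}`. -/
def T (ζ : Kˣ) : Subgroup (Grp K 2 4) := (phi ζ).range

theorem phi_mem (ζ : Kˣ) (t : Fin 5 → Kˣ) : phi ζ t ∈ T ζ := ⟨t, rfl⟩

/-- the function recovering the parameters -/
def psi (ζ : Kˣ) (h : Grp K 2 4) : Fin 5 → K :=
  ![(h 0 : Matrix (Fin 2) (Fin 2) K) 0 0 + (h 0 : Matrix (Fin 2) (Fin 2) K) 0 1,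
    (h 0 : Matrix (Fin 2) (Fin 2) K) 0 0 - (h 0 : Matrix (Fin 2) (Fin 2) K) 0 1,
    (h 1 : Matrix (Fin 2) (Fin 2) K) 0 0 + (ζ : K)⁻¹ * (h 1 : Matrix (Fin 2) (Fin 2) K) 0 1,
    (h 1 : Matrix (Fin 2) (Fin 2) K) 0 0 - (ζ : K)⁻¹ * (h 1 : Matrix (Fin 2) (Fin 2) K) 0 1,
    (h 2 : Matrix (Fin 2) (Fin 2) K) 0 0 * (h 1 : Matrix (Fin 2) (Fin 2) K) 0 0 +
      (h 2 : Matrix (Fin 2) (Fin 2) K) 0 1 * (h 1 : Matrix (Fin 2) (Fin 2) K) 1 0]

theorem psi_phi (ζ : Kˣ) (t : Fin 5 → Kˣ) (a : Fin 5) : psi ζ (phi ζ t) a = t a := by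
  have hζ : (ζ : K) ≠ 0 := ζ.ne_zero
  have h2 : (t 2 : K) ≠ 0 := (t 2).ne_zero
  have h3 : (t 3 : K) ≠ 0 := (t 3).ne_zero
  fin_cases a
  · simp [psi, phi_zero, mU_val, mm]; ring
  · simp [psi, phi_zero, mU_val, mm]; ring
  · simp [psi, phi_one, mU_val, mm]; ring
  · simp [psi, phi_one, mU_val, mm]; ring
  · simp [psi, phi_one, phi_two, mU_val, mm]
    field_simp
    ring

theorem phi_injective (ζ : Kˣ) : Function.Injective (phi ζ) := by
  intro t t' h
  funext a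
  apply Units.ext
  rw [← psi_phi ζ t a, ← psi_phi ζ t' a, h]

omit [CharZero K] in
theorem psi_regular (ζ : Kˣ) (a : Fin 5) : IsRegular fun h : Grp K 2 4 => psi ζ h a := by
  fin_cases a
  · exact regular_add (regular_entry _ _ _) (regular_entry _ _ _)
  · exact regular_sub (regular_entry _ _ _) (regular_entry _ _ _)
  · exact regular_add (regular_entry _ _ _) (regular_mul (regular_const _) (regular_entry _ _ _))
  · exact regular_sub (regular_entry _ _ _) (regular_mul (regular_const _) (regular_entry _ _ _))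
  · exact regular_add (regular_mul (regular_entry _ _ _) (regular_entry _ _ _))
      (regular_mul (regular_entry _ _ _) (regular_entry _ _ _))

/-- membership criterion for `T ζ` -/
theorem mem_T (ζ : Kˣ) (h : Grp K 2 4)
    (h1 : (h 0 : Matrix (Fin 2) (Fin 2) K) 0 0 = (h 0 : Matrix (Fin 2) (Fin 2) K) 1 1)
    (h2 : (h 0 : Matrix (Fin 2) (Fin 2) K) 0 1 = (h 0 : Matrix (Fin 2) (Fin 2) K) 1 0)
    (h3 : (h 1 : Matrix (Fin 2) (Fin 2) K) 0 0 = (h 1 : Matrix (Fin 2) (Fin 2) K) 1 1)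
    (h4 : (h 1 : Matrix (Fin 2) (Fin 2) K) 0 1 =
      (ζ : K) ^ 2 * (h 1 : Matrix (Fin 2) (Fin 2) K) 1 0)
    (z : Kˣ) (hz : h 2 * h 1 = mU 1 z z) (hz' : h 3 * h 0 = mU 1 z⁻¹ z⁻¹) : h ∈ T ζ := by
  have hζ : (ζ : K) ≠ 0 := ζ.ne_zero
  -- the general form of the first two components
  have key : ∀ (η : Kˣ) (g : GL (Fin 2) K),
      (g : Matrix (Fin 2) (Fin 2) K) 0 0 = (g : Matrix (Fin 2) (Fin 2) K) 1 1 →
      (g : Matrix (Fin 2) (Fin 2) K) 0 1 = (η : K) ^ 2 * (g : Matrix (Fin 2) (Fin 2) K) 1 0 →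
      ∃ s t : Kˣ, g = mU η s t := by
    intro η g hg1 hg2
    have hη : (η : K) ≠ 0 := η.ne_zero
    obtain ⟨a, ha⟩ : ∃ a, a = (g : Matrix (Fin 2) (Fin 2) K) 0 0 := ⟨_, rfl⟩
    obtain ⟨c, hc⟩ : ∃ c, c = (g : Matrix (Fin 2) (Fin 2) K) 1 0 := ⟨_, rfl⟩
    have hdet : (g : Matrix (Fin 2) (Fin 2) K).det ≠ 0 := by
      have := g.isUnit
      rw [Matrix.isUnit_iff_isUnit_det] at this
      exact this.ne_zero
    have hdet2 : (g : Matrix (Fin 2) (Fin 2) K).det = (a + (η : K) * c) * (a - (η : K) * c) := by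
      rw [Matrix.det_fin_two, hg2, ← hg1, ← ha, ← hc]
      ring
    rw [hdet2] at hdet
    have hs : a + (η : K) * c ≠ 0 := left_ne_zero_of_mul hdet
    have ht : a - (η : K) * c ≠ 0 := right_ne_zero_of_mul hdet
    refine ⟨Units.mk0 _ hs, Units.mk0 _ ht, ?_⟩
    apply Units.ext
    rw [mU_val]
    ext i j
    fin_cases i <;> fin_cases j
    · simp [mm, ← ha]
    · simp [mm, hg2, ← hc]; ring
    · simp [mm, ← hc]
    · simp [mm, ← hg1, ← ha]
  obtain ⟨s, t, hst⟩ := key 1 (h 0) h1 (by simpa using h2)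
  obtain ⟨s', t', hst'⟩ := key ζ (h 1) h3 h4
  refine ⟨![s, t, s', t', z], ?_⟩
  funext i
  fin_cases i
  · change mU 1 s t = h 0
    rw [hst]
  · change mU ζ s' t' = h 1
    rw [hst']
  · change mU ζ (z * s'⁻¹) (z * t'⁻¹) = h 2
    have : h 2 = mU 1 z z * (h 1)⁻¹ := by rw [← hz]; group
    rw [this, hst', mU_inv, mU_scalar 1 ζ, mU_mul]
  · change mU 1 (z⁻¹ * s⁻¹) (z⁻¹ * t⁻¹) = h 3
    have : h 3 = mU 1 z⁻¹ z⁻¹ * (h 0)⁻¹ := by rw [← hz']; group
    rw [this, hst, mU_inv, mU_mul]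

theorem T_closed (ζ : Kˣ) : IsZariskiClosed (T ζ : Set (Grp K 2 4)) := by
  have hζ : (ζ : K) ≠ 0 := ζ.ne_zero
  let E : Fin 11 → Grp K 2 4 → K := ![
    fun h => (h 0 : Matrix (Fin 2) (Fin 2) K) 0 0 - (h 0 : Matrix (Fin 2) (Fin 2) K) 1 1,
    fun h => (h 0 : Matrix (Fin 2) (Fin 2) K) 0 1 - (h 0 : Matrix (Fin 2) (Fin 2) K) 1 0,
    fun h => (h 1 : Matrix (Fin 2) (Fin 2) K) 0 0 - (h 1 : Matrix (Fin 2) (Fin 2) K) 1 1,
    fun h => (h 1 : Matrix (Fin 2) (Fin 2) K) 0 1 -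
      (ζ : K) ^ 2 * (h 1 : Matrix (Fin 2) (Fin 2) K) 1 0,
    fun h => ((h 2 : Matrix (Fin 2) (Fin 2) K) * (h 1 : Matrix (Fin 2) (Fin 2) K)) 0 1,
    fun h => ((h 2 : Matrix (Fin 2) (Fin 2) K) * (h 1 : Matrix (Fin 2) (Fin 2) K)) 1 0,
    fun h => ((h 2 : Matrix (Fin 2) (Fin 2) K) * (h 1 : Matrix (Fin 2) (Fin 2) K)) 0 0 -
      ((h 2 : Matrix (Fin 2) (Fin 2) K) * (h 1 : Matrix (Fin 2) (Fin 2) K)) 1 1,
    fun h => ((h 3 : Matrix (Fin 2) (Fin 2) K) * (h 0 : Matrix (Fin 2) (Fin 2) K)) 0 1,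
    fun h => ((h 3 : Matrix (Fin 2) (Fin 2) K) * (h 0 : Matrix (Fin 2) (Fin 2) K)) 1 0,
    fun h => ((h 3 : Matrix (Fin 2) (Fin 2) K) * (h 0 : Matrix (Fin 2) (Fin 2) K)) 0 0 *
      ((h 2 : Matrix (Fin 2) (Fin 2) K) * (h 1 : Matrix (Fin 2) (Fin 2) K)) 0 0 - 1,
    fun h => ((h 3 : Matrix (Fin 2) (Fin 2) K) * (h 0 : Matrix (Fin 2) (Fin 2) K)) 1 1 *
      ((h 2 : Matrix (Fin 2) (Fin 2) K) * (h 1 : Matrix (Fin 2) (Fin 2) K)) 0 0 - 1]
  have hprod : ∀ (a b : Fin 4) (i j : Fin 2), IsRegular fun h : Grp K 2 4 =>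
      ((h a : Matrix (Fin 2) (Fin 2) K) * (h b : Matrix (Fin 2) (Fin 2) K)) i j := by
    intro a b i j
    have : (fun h : Grp K 2 4 =>
        ((h a : Matrix (Fin 2) (Fin 2) K) * (h b : Matrix (Fin 2) (Fin 2) K)) i j) =
        fun h : Grp K 2 4 => (h a : Matrix (Fin 2) (Fin 2) K) i 0 *
          (h b : Matrix (Fin 2) (Fin 2) K) 0 j +
          (h a : Matrix (Fin 2) (Fin 2) K) i 1 * (h b : Matrix (Fin 2) (Fin 2) K) 1 j := by
      funext h
      rw [Matrix.mul_apply, Fin.sum_univ_two]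
    rw [this]
    exact regular_add (regular_mul (regular_entry _ _ _) (regular_entry _ _ _))
      (regular_mul (regular_entry _ _ _) (regular_entry _ _ _))
  have hE : ∀ i, IsRegular (E i) := by
    intro i
    fin_cases i
    · exact regular_sub (regular_entry _ _ _) (regular_entry _ _ _)
    · exact regular_sub (regular_entry _ _ _) (regular_entry _ _ _)
    · exact regular_sub (regular_entry _ _ _) (regular_entry _ _ _)
    · exact regular_sub (regular_entry _ _ _)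
        (regular_mul (regular_const _) (regular_entry _ _ _))
    · exact hprod _ _ _ _
    · exact hprod _ _ _ _
    · exact regular_sub (hprod _ _ _ _) (hprod _ _ _ _)
    · exact hprod _ _ _ _
    · exact hprod _ _ _ _
    · exact regular_sub (regular_mul (hprod _ _ _ _) (hprod _ _ _ _)) (regular_const _)
    · exact regular_sub (regular_mul (hprod _ _ _ _) (hprod _ _ _ _)) (regular_const _)
  choose P hP using hE
  refine ⟨Set.range P, ?_⟩
  ext h
  have hiff : (∀ Q ∈ Set.range P, MvPolynomial.eval (coord h) Q = 0) ↔ ∀ i, E i h = 0 := by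
    constructor
    · intro H i
      rw [hP i h]
      exact H _ ⟨i, rfl⟩
    · rintro H _ ⟨i, rfl⟩
      rw [← hP i h]
      exact H i
  change _ ↔ ∀ Q ∈ Set.range P, MvPolynomial.eval (coord h) Q = 0
  rw [hiff]
  constructor
  · rintro ⟨t, rfl⟩
    have e21 : phi ζ t 2 * phi ζ t 1 = mU 1 (t 4) (t 4) := by
      rw [phi_two, phi_one, mU_mul]
      simp only [inv_mul_cancel_right]
      exact mU_scalar _ _ _
    have e30 : phi ζ t 3 * phi ζ t 0 = mU 1 (t 4)⁻¹ (t 4)⁻¹ := by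
      rw [phi_three, phi_zero, mU_mul]
      simp only [inv_mul_cancel_right]
    have e21' : ((phi ζ t 2 : GL (Fin 2) K) : Matrix (Fin 2) (Fin 2) K) *
        ((phi ζ t 1 : GL (Fin 2) K) : Matrix (Fin 2) (Fin 2) K) =
        mm (K := K) 1 ((t 4 : Kˣ) : K) ((t 4 : Kˣ) : K) := by
      rw [← Units.val_mul, e21, mU_val]
    have e30' : ((phi ζ t 3 : GL (Fin 2) K) : Matrix (Fin 2) (Fin 2) K) *
        ((phi ζ t 0 : GL (Fin 2) K) : Matrix (Fin 2) (Fin 2) K) =
        mm (K := K) 1 (((t 4)⁻¹ : Kˣ) : K) (((t 4)⁻¹ : Kˣ) : K) := by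
      rw [← Units.val_mul, e30, mU_val]
    intro i
    fin_cases i
    · simp [E, phi_zero, mU_val, mm]
    · simp [E, phi_zero, mU_val, mm]
    · simp [E, phi_one, mU_val, mm]
    · simp [E, phi_one, mU_val, mm]; field_simp; simp
    · simp [E, e21', mm]
    · simp [E, e21', mm]
    · simp [E, e21', mm]
    · simp [E, e30', mm]
    · simp [E, e30', mm]
    · simp [E, e21', e30', mm]
    · simp [E, e21', e30', mm]
  · intro H
    have H0 := H 0
    have H1 := H 1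
    have H2 := H 2
    have H3 := H 3
    have H4 := H 4
    have H5 := H 5
    have H6 := H 6
    have H7 := H 7
    have H8 := H 8
    have H9 := H 9
    have H10 := H 10
    simp only [E, Matrix.cons_val] at H0 H1 H2 H3 H4 H5 H6 H7 H8 H9 H10
    rw [sub_eq_zero] at H0 H1 H2 H3 H6 H9 H10
    have hz0 : ((h 2 : Matrix (Fin 2) (Fin 2) K) * (h 1 : Matrix (Fin 2) (Fin 2) K)) 0 0 ≠ 0 :=
      right_ne_zero_of_mul_eq_one H9
    refine mem_T ζ h H0 H1 H2 H3 (Units.mk0 _ hz0) ?_ ?_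
    · apply Units.ext
      rw [Units.val_mul, mU_val]
      ext i j
      fin_cases i <;> fin_cases j
      · simp [mm]
      · simpa [mm] using H4
      · simpa [mm] using H5
      · simpa [mm] using H6.symm
    · apply Units.ext
      rw [Units.val_mul, mU_val]
      ext i j
      fin_cases i <;> fin_cases j
      · simpa [mm] using eq_inv_of_mul_eq_one_left H9
      · simpa [mm] using H7
      · simpa [mm] using H8
      · simpa [mm] using eq_inv_of_mul_eq_one_left H10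

/-- the isomorphism `G_m^5 ≃ T ζ` -/
noncomputable def phiEquiv (ζ : Kˣ) : (Fin 5 → Kˣ) ≃* T ζ :=
  MonoidHom.ofInjective (phi_injective ζ)

theorem phiEquiv_coe (ζ : Kˣ) (t : Fin 5 → Kˣ) :
    ((phiEquiv ζ t : T ζ) : Grp K 2 4) = phi ζ t := rfl

theorem T_isTorus (ζ : Kˣ) : IsTorus (T ζ) := by
  refine ⟨T_closed ζ, 5, phiEquiv ζ, ?_, ?_⟩
  · intro k i j
    simp only [phiEquiv_coe]
    -- a general statement about `mm`
    have key : ∀ (η : Kˣ) (p q : MvPolynomial (Fin 5 ⊕ Fin 5) K) (i j : Fin 2),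
        ∃ P : MvPolynomial (Fin 5 ⊕ Fin 5) K, ∀ t : Fin 5 → Kˣ,
          mm η (MvPolynomial.eval (torusCoord t) p) (MvPolynomial.eval (torusCoord t) q) i j =
            MvPolynomial.eval (torusCoord t) P := by
      intro η p q i j
      fin_cases i <;> fin_cases j
      · exact ⟨MvPolynomial.C (1 / 2) * (p + q), fun t => by simp [mm]; ring⟩
      · exact ⟨MvPolynomial.C ((η : K) / 2) * (p - q), fun t => by simp [mm]; ring⟩
      · exact ⟨MvPolynomial.C ((η : K)⁻¹ / 2) * (p - q), fun t => by simp [mm]; ring⟩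
      · exact ⟨MvPolynomial.C (1 / 2) * (p + q), fun t => by simp [mm]; ring⟩
    fin_cases k
    · obtain ⟨P, hP⟩ := key 1 (MvPolynomial.X (Sum.inl 0)) (MvPolynomial.X (Sum.inl 1)) i j
      refine ⟨P, fun t => ?_⟩
      rw [← hP t]
      simp [phi_zero, mU_val, torusCoord]
    · obtain ⟨P, hP⟩ := key ζ (MvPolynomial.X (Sum.inl 2)) (MvPolynomial.X (Sum.inl 3)) i j
      refine ⟨P, fun t => ?_⟩
      rw [← hP t]
      simp [phi_one, mU_val, torusCoord]
    · obtain ⟨P, hP⟩ := key ζ (MvPolynomial.X (Sum.inl 4) * MvPolynomial.X (Sum.inr 2))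
        (MvPolynomial.X (Sum.inl 4) * MvPolynomial.X (Sum.inr 3)) i j
      refine ⟨P, fun t => ?_⟩
      rw [← hP t]
      simp [phi_two, mU_val, torusCoord]
    · obtain ⟨P, hP⟩ := key 1 (MvPolynomial.X (Sum.inr 4) * MvPolynomial.X (Sum.inr 0))
        (MvPolynomial.X (Sum.inr 4) * MvPolynomial.X (Sum.inr 1)) i j
      refine ⟨P, fun t => ?_⟩
      rw [← hP t]
      simp [phi_three, mU_val, torusCoord]
  · intro a
    refine ⟨fun h => psi ζ h a, psi_regular ζ a, ?_⟩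
    intro h
    obtain ⟨t, ht⟩ := (phiEquiv ζ).surjective h
    rw [← ht, MulEquiv.symm_apply_apply]
    exact (psi_phi ζ t a).symm

/-- the trivial choice of the matrices `M_i` -/
def M1 : Fin (4 + 1) → GL (Fin 2) K := fun _ => 1

theorem mem_varX (h : Grp K 2 4) : h ∈ varX (M1 (K := K)) ↔ h 0 * h 1 * h 2 * h 3 = 1 := by
  change (List.ofFn fun i : Fin 4 => M1 i.castSucc * h i).prod * M1 (Fin.last 4) = 1 ↔ _
  simp [M1, List.ofFn_succ, mul_assoc]

theorem T_subset (ζ : Kˣ) : (T ζ : Set (Grp K 2 4)) ⊆ varX M1 := by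
  rintro _ ⟨t, rfl⟩
  rw [mem_varX, phi_zero, phi_one, phi_two, phi_three, mul_assoc (mU 1 (t 0) (t 1)), mU_mul,
    show t 2 * (t 4 * (t 2)⁻¹) = t 4 by rw [mul_comm (t 4), mul_inv_cancel_left],
    show t 3 * (t 4 * (t 3)⁻¹) = t 4 by rw [mul_comm (t 4), mul_inv_cancel_left],
    mU_scalar ζ 1, mU_mul, mU_mul, ← mul_inv, ← mul_inv, mul_comm (t 0), mul_comm (t 1),
    mul_inv_cancel, mul_inv_cancel, mU_one]

theorem mm_J (ζ : Kˣ) : mm ζ (1 : K) (-1) = !![0, (ζ : K); (ζ : K)⁻¹, 0] := by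
  ext i j
  fin_cases i <;> fin_cases j <;> simp [mm] <;> norm_num

theorem mU_J_val (ζ : Kˣ) :
    ((mU ζ 1 (-1) : GL (Fin 2) K) : Matrix (Fin 2) (Fin 2) K) =
      !![0, (ζ : K); (ζ : K)⁻¹, 0] := by
  rw [mU_val, ← mm_J]
  simp

theorem commute_mU_iff (ζ : Kˣ) (g : GL (Fin 2) K) (h : g * mU ζ 1 (-1) = mU ζ 1 (-1) * g) :
    (g : Matrix (Fin 2) (Fin 2) K) 0 0 = (g : Matrix (Fin 2) (Fin 2) K) 1 1 ∧
    (g : Matrix (Fin 2) (Fin 2) K) 0 1 = (ζ : K) ^ 2 * (g : Matrix (Fin 2) (Fin 2) K) 1 0 := by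
  have hζ : (ζ : K) ≠ 0 := ζ.ne_zero
  have h2 : (g : Matrix (Fin 2) (Fin 2) K) * !![0, (ζ : K); (ζ : K)⁻¹, 0] =
      !![0, (ζ : K); (ζ : K)⁻¹, 0] * (g : Matrix (Fin 2) (Fin 2) K) := by
    rw [← mU_J_val, ← Units.val_mul, h, Units.val_mul]
  have h00 := congrFun (congrFun h2 0) 0
  have h01 := congrFun (congrFun h2 0) 1
  simp only [Matrix.mul_apply, Fin.sum_univ_two, Matrix.of_apply, Matrix.cons_val', Matrix.cons_val,
    mul_zero, zero_mul, zero_add, add_zero] at h00 h01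
  constructor
  · have : (g : Matrix (Fin 2) (Fin 2) K) 0 0 * (ζ : K) =
        (g : Matrix (Fin 2) (Fin 2) K) 1 1 * (ζ : K) := by
      linear_combination h01
    exact mul_right_cancel₀ hζ this
  · field_simp at h00
    linear_combination h00

theorem T_max (ζ : Kˣ) (hζ2 : (ζ : K) ^ 2 ≠ 1) (T' : Subgroup (Grp K 2 4)) (hT' : IsTorus T')
    (hX : (T' : Set (Grp K 2 4)) ⊆ varX M1) (hle : T ζ ≤ T') : T' = T ζ := by
  refine le_antisymm ?_ hle
  intro h hh
  obtain ⟨-, d, φ, -, -⟩ := hT'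
  have hcomm : ∀ a ∈ T', ∀ b ∈ T', a * b = b * a := by
    intro a ha b hb
    have h1 : (⟨a, ha⟩ : T') * ⟨b, hb⟩ = ⟨b, hb⟩ * ⟨a, ha⟩ := by
      apply φ.symm.injective
      rw [map_mul, map_mul, mul_comm]
    exact congrArg Subtype.val h1
  let j0 : Fin 5 → Kˣ := ![1, -1, 1, 1, 1]
  let j1 : Fin 5 → Kˣ := ![1, 1, 1, -1, 1]
  have c0 := hcomm h hh _ (hle (phi_mem ζ j0))
  have c1 := hcomm h hh _ (hle (phi_mem ζ j1))
  have c00 : h 0 * mU 1 1 (-1) = mU 1 1 (-1) * h 0 := congrFun c0 0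
  have c03 : h 3 * mU 1 1 (-1) = mU 1 1 (-1) * h 3 := by
    have := congrFun c0 3
    simp only [Pi.mul_apply, phi_three] at this
    simpa [j0] using this
  have c11 : h 1 * mU ζ 1 (-1) = mU ζ 1 (-1) * h 1 := congrFun c1 1
  have c12 : h 2 * mU ζ 1 (-1) = mU ζ 1 (-1) * h 2 := by
    have := congrFun c1 2
    simp only [Pi.mul_apply, phi_two] at this
    simpa [j1] using this
  have hX' := (mem_varX h).1 (hX hh)
  -- the element `h 1 * h 2` is scalar
  obtain ⟨g, hg⟩ : ∃ g : GL (Fin 2) K, g = h 1 * h 2 := ⟨_, rfl⟩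
  have hg' : h 3 * h 0 = g⁻¹ := by
    rw [eq_inv_iff_mul_eq_one]
    have h5 : h 3 * (h 0 * h 1 * h 2 * h 3) * (h 3)⁻¹ = 1 := by rw [hX']; group
    rw [← h5, hg]
    group
  have k1 : g * mU ζ 1 (-1) = mU ζ 1 (-1) * g := by
    rw [hg, mul_assoc, c12, ← mul_assoc, c11, mul_assoc]
  have k2 : g * mU 1 1 (-1) = mU 1 1 (-1) * g := by
    have h6 : g⁻¹ * mU 1 1 (-1) = mU 1 1 (-1) * g⁻¹ := by
      rw [← hg', mul_assoc, c00, ← mul_assoc, c03, mul_assoc]
    have h7 : Commute g⁻¹ (mU 1 1 (-1)) := h6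
    exact (Commute.inv_left_iff.1 h7)
  obtain ⟨q1, q2⟩ := commute_mU_iff ζ g k1
  obtain ⟨q3, q4⟩ := commute_mU_iff 1 g k2
  rw [Units.val_one, one_pow, one_mul] at q4
  have q5 : (g : Matrix (Fin 2) (Fin 2) K) 1 0 = 0 := by
    have : ((ζ : K) ^ 2 - 1) * (g : Matrix (Fin 2) (Fin 2) K) 1 0 = 0 := by
      linear_combination q4 - q2
    rcases mul_eq_zero.1 this with h8 | h8
    · exact absurd (sub_eq_zero.1 h8) hζ2
    · exact h8
  have q6 : (g : Matrix (Fin 2) (Fin 2) K) 0 1 = 0 := by rw [q4, q5]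
  have hz0 : (g : Matrix (Fin 2) (Fin 2) K) 0 0 ≠ 0 := by
    intro h0
    have hdet : (g : Matrix (Fin 2) (Fin 2) K).det ≠ 0 := by
      have := g.isUnit
      rw [Matrix.isUnit_iff_isUnit_det] at this
      exact this.ne_zero
    apply hdet
    rw [Matrix.det_fin_two, h0, q6]
    ring
  obtain ⟨z, hgs⟩ : ∃ z : Kˣ, g = mU 1 z z := by
    refine ⟨Units.mk0 _ hz0, ?_⟩
    apply Units.ext
    rw [mU_val]
    ext i j
    fin_cases i <;> fin_cases j
    · simp [mm]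
    · simp [mm, q6]
    · simp [mm, q5]
    · simp [mm, ← q1]
  have hgc : ∀ x : GL (Fin 2) K, g * x = x * g := by
    intro x
    apply Units.ext
    rw [hgs, Units.val_mul, Units.val_mul, mU_val]
    ext i j
    fin_cases i <;> fin_cases j <;> simp [mm, Matrix.mul_apply, Fin.sum_univ_two, mul_comm]
  obtain ⟨p1, p2⟩ := commute_mU_iff 1 (h 0) c00
  obtain ⟨p3, p4⟩ := commute_mU_iff ζ (h 1) c11
  rw [Units.val_one, one_pow, one_mul] at p2
  refine mem_T ζ h p1 p2 p3 p4 z ?_ ?_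
  · rw [← hgs]
    have : h 2 = (h 1)⁻¹ * g := by rw [hg]; group
    rw [this, mul_assoc, hgc (h 1)]
    group
  · rw [hg', hgs, mU_inv]

theorem T_isMax (ζ : Kˣ) (hζ2 : (ζ : K) ^ 2 ≠ 1) : IsMaxTorusIn (varX M1) (T ζ) :=
  ⟨T_isTorus ζ, T_subset ζ, fun T' h1 h2 h3 => T_max ζ hζ2 T' h1 h2 h3⟩

end Construction

section Invariant

open Pool.Agent.Lib.MP_629379_al

variable {K : Type u} [Field K]

theorem mem_center_iff2 (g : GL (Fin 2) K) :
    g ∈ Subgroup.center (GL (Fin 2) K) ↔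
      (g : Matrix (Fin 2) (Fin 2) K) 0 1 = 0 ∧ (g : Matrix (Fin 2) (Fin 2) K) 1 0 = 0 ∧
      (g : Matrix (Fin 2) (Fin 2) K) 0 0 = (g : Matrix (Fin 2) (Fin 2) K) 1 1 := by
  rw [Matrix.GeneralLinearGroup.mem_center_iff_val_mem_range_scalar]
  constructor
  · rintro ⟨a, ha⟩
    change Matrix.scalar (Fin 2) a = (g : Matrix (Fin 2) (Fin 2) K) at ha
    rw [← ha]
    simp
  · rintro ⟨h1, h2, h3⟩
    refine ⟨(g : Matrix (Fin 2) (Fin 2) K) 0 0, ?_⟩
    ext i j
    fin_cases i <;> fin_cases j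
    · simp
    · simp [h1]
    · simp [h2]
    · simp [h3]

theorem commute_iff2 (x y : GL (Fin 2) K) :
    Commute x y ↔
      (x : Matrix (Fin 2) (Fin 2) K) 0 1 * (y : Matrix (Fin 2) (Fin 2) K) 1 0 =
        (y : Matrix (Fin 2) (Fin 2) K) 0 1 * (x : Matrix (Fin 2) (Fin 2) K) 1 0 ∧
      (x : Matrix (Fin 2) (Fin 2) K) 0 1 *
        ((y : Matrix (Fin 2) (Fin 2) K) 0 0 - (y : Matrix (Fin 2) (Fin 2) K) 1 1) =
        (y : Matrix (Fin 2) (Fin 2) K) 0 1 *
        ((x : Matrix (Fin 2) (Fin 2) K) 0 0 - (x : Matrix (Fin 2) (Fin 2) K) 1 1) ∧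
      (x : Matrix (Fin 2) (Fin 2) K) 1 0 *
        ((y : Matrix (Fin 2) (Fin 2) K) 0 0 - (y : Matrix (Fin 2) (Fin 2) K) 1 1) =
        (y : Matrix (Fin 2) (Fin 2) K) 1 0 *
        ((x : Matrix (Fin 2) (Fin 2) K) 0 0 - (x : Matrix (Fin 2) (Fin 2) K) 1 1) := by
  have h1 : Commute x y ↔ (x : Matrix (Fin 2) (Fin 2) K) * (y : Matrix (Fin 2) (Fin 2) K) =
      (y : Matrix (Fin 2) (Fin 2) K) * (x : Matrix (Fin 2) (Fin 2) K) := by
    constructor
    · intro h
      rw [← Units.val_mul, ← Units.val_mul, h.eq]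
    · intro h
      apply Units.ext
      exact h
  rw [h1, ← Matrix.ext_iff]
  constructor
  · intro h
    have a := h 0 0
    have b := h 0 1
    have c := h 1 0
    simp only [Matrix.mul_apply, Fin.sum_univ_two] at a b c
    refine ⟨?_, ?_, ?_⟩
    · linear_combination a
    · linear_combination -b
    · linear_combination c
  · rintro ⟨a, b, c⟩ i j
    fin_cases i <;> fin_cases j <;> simp only [Matrix.mul_apply, Fin.sum_univ_two]
    · simp; linear_combination a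
    · simp; linear_combination -b
    · simp; linear_combination c
    · simp; linear_combination -a

theorem centComm : CentComm (GL (Fin 2) K) := by
  intro c x y hc hx hy
  rw [mem_center_iff2] at hc
  rw [commute_iff2] at hx hy ⊢
  obtain ⟨x1, x2, x3⟩ := hx
  obtain ⟨y1, y2, y3⟩ := hy
  generalize (c : Matrix (Fin 2) (Fin 2) K) 0 1 = c1 at *
  generalize (c : Matrix (Fin 2) (Fin 2) K) 1 0 = c2 at *
  generalize hc3 : (c : Matrix (Fin 2) (Fin 2) K) 0 0 - (c : Matrix (Fin 2) (Fin 2) K) 1 1 = c3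
    at *
  rw [← sub_eq_zero (a := (c : Matrix (Fin 2) (Fin 2) K) 0 0), hc3] at hc
  generalize (x : Matrix (Fin 2) (Fin 2) K) 0 1 = a1 at *
  generalize (x : Matrix (Fin 2) (Fin 2) K) 1 0 = a2 at *
  generalize (x : Matrix (Fin 2) (Fin 2) K) 0 0 - (x : Matrix (Fin 2) (Fin 2) K) 1 1 = a3 at *
  generalize (y : Matrix (Fin 2) (Fin 2) K) 0 1 = b1 at *
  generalize (y : Matrix (Fin 2) (Fin 2) K) 1 0 = b2 at *
  generalize (y : Matrix (Fin 2) (Fin 2) K) 0 0 - (y : Matrix (Fin 2) (Fin 2) K) 1 1 = b3 at *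
  by_cases h1 : c1 = 0
  · by_cases h2 : c2 = 0
    · have h3 : c3 ≠ 0 := fun h3 => hc ⟨h1, h2, h3⟩
      subst h1 h2
      have e1 : a1 = 0 := by
        have : a1 * c3 = 0 := by linear_combination -x2
        exact (mul_eq_zero.1 this).resolve_right h3
      have e2 : a2 = 0 := by
        have : a2 * c3 = 0 := by linear_combination -x3
        exact (mul_eq_zero.1 this).resolve_right h3
      have e3 : b1 = 0 := by
        have : b1 * c3 = 0 := by linear_combination -y2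
        exact (mul_eq_zero.1 this).resolve_right h3
      have e4 : b2 = 0 := by
        have : b2 * c3 = 0 := by linear_combination -y3
        exact (mul_eq_zero.1 this).resolve_right h3
      subst e1 e2 e3 e4
      simp
    · have third : a2 * b3 = b2 * a3 := by
        apply mul_left_cancel₀ h2
        linear_combination a2 * y3 - b2 * x3
      refine ⟨?_, ?_, third⟩ <;> apply mul_left_cancel₀ h2
      · linear_combination -b2 * x1 + a2 * y1
      · linear_combination -b3 * x1 + a3 * y1 + c1 * third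
  · have second : a1 * b3 = b1 * a3 := by
      apply mul_left_cancel₀ h1
      linear_combination a1 * y2 - b1 * x2
    refine ⟨?_, second, ?_⟩ <;> apply mul_left_cancel₀ h1
    · linear_combination a1 * y1 - b1 * x1
    · linear_combination b3 * x1 - a3 * y1 + c2 * second

variable [CharZero K]

theorem J_not_center (ζ : Kˣ) : mU ζ 1 (-1) ∉ Subgroup.center (GL (Fin 2) K) := by
  rw [mem_center_iff2, mU_J_val]
  rintro ⟨h, -, -⟩
  exact ζ.ne_zero (by simpa using h)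

theorem J_mul_val (ζ : Kˣ) :
    ((mU 1 1 (-1) * mU ζ 1 (-1) : GL (Fin 2) K) : Matrix (Fin 2) (Fin 2) K) =
      Matrix.diagonal ![(ζ : K)⁻¹, (ζ : K)] := by
  rw [Units.val_mul, mU_J_val, mU_J_val]
  ext i j
  fin_cases i <;> fin_cases j <;> simp [Matrix.mul_apply, Fin.sum_univ_two]

theorem J_noncomm (ζ : Kˣ) (hζ2 : (ζ : K) ^ 2 ≠ 1) :
    ¬ ∀ x y : GL (Fin 2) K, Commute x y := by
  intro H
  have h := (commute_iff2 _ _).1 (H (mU 1 1 (-1)) (mU ζ 1 (-1)))
  have h1 := h.1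
  rw [mU_J_val, mU_J_val] at h1
  simp at h1
  apply hζ2
  have hζ : (ζ : K) ≠ 0 := ζ.ne_zero
  field_simp at h1
  exact h1.symm

/-- the invariant of `T ζ` -/
theorem inv_T (ζ : Kˣ) (m : ℕ) : m ∈ inv (T ζ) ↔ (ζ : K) ^ (2 * m) = 1 := by
  have hζ : (ζ : K) ≠ 0 := ζ.ne_zero
  have hpow : ∀ c : K, c ≠ 0 → ∀ g : GL (Fin 2) K,
      (g : Matrix (Fin 2) (Fin 2) K) = c • Matrix.diagonal ![(ζ : K)⁻¹, (ζ : K)] →
      (g ^ m ∈ Subgroup.center (GL (Fin 2) K) ↔ (ζ : K) ^ (2 * m) = 1) := by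
    intro c hc g hg
    rw [mem_center_iff2, Units.val_pow_eq_pow_val, hg, smul_pow, Matrix.diagonal_pow]
    simp only [Matrix.smul_apply, Matrix.diagonal_apply, Pi.pow_apply]
    simp only [zero_ne_one, one_ne_zero, if_false, if_true, smul_zero,
      Matrix.cons_val_zero, Matrix.cons_val_one, smul_eq_mul, mul_zero, true_and]
    have hcm : c ^ m ≠ 0 := pow_ne_zero _ hc
    have hzm : (ζ : K) ^ m ≠ 0 := pow_ne_zero _ hζ
    rw [mul_right_inj' hcm, inv_pow, two_mul, pow_add]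
    constructor
    · intro h
      rw [← inv_mul_cancel₀ hzm, ← h]
      have h' := congrArg (fun x => x * (ζ : K) ^ m) h
      simp only [inv_mul_cancel₀ hzm] at h'
      rw [h, ← h', inv_mul_cancel₀ hzm]
    · intro h
      exact (eq_inv_of_mul_eq_one_left h).symm
  have hforce : ∀ (η s t : Kˣ), mU η s t ∉ Subgroup.center (GL (Fin 2) K) →
      mU η s t * mU η s t ∈ Subgroup.center (GL (Fin 2) K) →
      ∃ c : K, c ≠ 0 ∧
        ((mU η s t : GL (Fin 2) K) : Matrix (Fin 2) (Fin 2) K) =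
          c • ((mU η 1 (-1) : GL (Fin 2) K) : Matrix (Fin 2) (Fin 2) K) := by
    intro η s t h1 h2
    have hη : (η : K) ≠ 0 := η.ne_zero
    have hst : (s : K) ≠ (t : K) := by
      intro h
      apply h1
      have : s = t := Units.ext h
      subst this
      rw [mem_center_iff2, mU_val]
      simp [mm]
    have hsq : (s : K) * s = t * t := by
      rw [mU_mul, mem_center_iff2, mU_val] at h2
      have h3 := h2.1
      simp [mm, hη] at h3
      exact sub_eq_zero.1 h3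
    have hneg : (t : K) = -s := by
      have h4 : ((s : K) - t) * (s + t) = 0 := by linear_combination hsq
      rcases mul_eq_zero.1 h4 with h5 | h5
      · exact absurd (sub_eq_zero.1 h5) hst
      · linear_combination h5
    refine ⟨(s : K), s.ne_zero, ?_⟩
    rw [mU_J_val, mU_val]
    ext i j
    fin_cases i <;> fin_cases j
    · simp [mm, hneg]
    · simp [mm, hneg]; ring
    · simp [mm, hneg]; ring
    · simp [mm, hneg]
  constructor
  · rintro ⟨_, ⟨t, rfl⟩, h0, h1, h00, h11, hm⟩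
    rw [phi_zero] at h0 h00 hm
    rw [phi_one] at h1 h11 hm
    obtain ⟨c0, hc0, e0⟩ := hforce _ _ _ h0 h00
    obtain ⟨c1, hc1, e1⟩ := hforce _ _ _ h1 h11
    refine (hpow (c0 * c1) (mul_ne_zero hc0 hc1) _ ?_).1 hm
    rw [Units.val_mul, e0, e1, smul_mul_smul_comm, ← Units.val_mul, J_mul_val]
  · intro h
    refine ⟨phi ζ ![1, -1, 1, -1, 1], phi_mem _ _, ?_, ?_, ?_, ?_, ?_⟩
    · exact J_not_center 1
    · exact J_not_center ζ
    · change mU 1 1 (-1) * mU 1 1 (-1) ∈ _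
      rw [mU_mul]
      simp only [mul_one, mul_neg, neg_neg]
      rw [mU_one]
      exact Subgroup.one_mem _
    · change mU ζ 1 (-1) * mU ζ 1 (-1) ∈ _
      rw [mU_mul]
      simp only [mul_one, mul_neg, neg_neg]
      rw [mU_one]
      exact Subgroup.one_mem _
    · change (mU 1 1 (-1) * mU ζ 1 (-1)) ^ m ∈ _
      refine (hpow 1 one_ne_zero _ ?_).2 h
      rw [J_mul_val, one_smul]

theorem inv_le_of_orbit (ζ ζ' : Kˣ) (hζ2 : (ζ : K) ^ 2 ≠ 1)
    (σ : Grp K 2 4 ≃* Grp K 2 4) (hσX : σ '' varX M1 = varX M1)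
    (h : T ζ' = (T ζ).map σ.toMonoidHom) : inv (T ζ) ⊆ inv (T ζ') := by
  refine inv_subset (J_noncomm ζ hζ2) centComm σ ?_ (T ζ) (T ζ') ?_ ?_ h.symm
  · intro x hx
    have h1 : x ∈ varX (M1 (K := K)) := (mem_varX x).2 hx
    have h2 : σ x ∈ varX (M1 (K := K)) := by
      rw [← hσX]
      exact ⟨x, h1, rfl⟩
    exact (mem_varX _).1 h2
  · rintro _ ⟨t, rfl⟩
    constructor
    · rw [phi_zero, phi_three, mU_mul, mem_center_iff2, mU_val]
      simp [mm, mul_comm]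
    · rw [phi_one, phi_two, mU_mul, mem_center_iff2, mU_val]
      simp [mm, mul_comm]
  · refine ⟨phi ζ' ![1, -1, 1, 1, 1], phi_mem _ _, J_not_center 1, ?_⟩
    change mU ζ' 1 1 ∈ _
    rw [mU_one]
    exact Subgroup.one_mem _

end Invariant

/-- **The answer to Q1 is negative** over every algebraically closed field `K` of characteristic
zero: there are `n, r ≥ 1` and semisimple `M_1, …, M_{r+1} ∈ GL_n(K)` (in fact `n = 2`, `r = 4`
and `M_i = 1`) such that the maximal tori lying in `X` fall into infinitely many `H`-orbits. -/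
theorem result (K : Type u) [Field K] [IsAlgClosed K] [CharZero K] :
    ∃ n r : ℕ, 1 ≤ n ∧ 1 ≤ r ∧ ∃ M : Fin (r + 1) → GL (Fin n) K,
      (∀ i, IsSemisimpleMat (M i)) ∧ (maxTorusOrbits (varX M)).Infinite := by
  refine ⟨2, 4, by norm_num, by norm_num, M1, ?_, ?_⟩
  · intro i
    refine ⟨1, fun _ => 1, ?_⟩
    simp [M1]
  -- roots of unity of odd order `2 k + 3`
  have hroot : ∀ k : ℕ, ∃ ζ : Kˣ, IsPrimitiveRoot (ζ : K) (2 * k + 3) := by
    intro k
    haveI : NeZero ((2 * k + 3 : ℕ) : K) := ⟨by exact_mod_cast (by omega : 2 * k + 3 ≠ 0)⟩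
    obtain ⟨ζ, hζ⟩ := HasEnoughRootsOfUnity.exists_primitiveRoot K (2 * k + 3)
    exact ⟨(hζ.isUnit (by omega)).unit, hζ⟩
  choose ζ hζ using hroot
  have hζ2 : ∀ k, (ζ k : K) ^ 2 ≠ 1 := by
    intro k h
    have := (hζ k).dvd_of_pow_eq_one 2 h
    have := Nat.le_of_dvd (by norm_num) this
    omega
  have hinv : ∀ k m, m ∈ Pool.Agent.Lib.MP_629379_al.inv (T (ζ k)) ↔ (2 * k + 3) ∣ m := by
    intro k m
    rw [inv_T, (hζ k).pow_eq_one_iff_dvd]
    constructor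
    · intro h
      exact (Nat.Coprime.dvd_of_dvd_mul_left
        (by rw [Nat.coprime_comm, Nat.coprime_two_left]; exact ⟨k + 1, by ring⟩) h)
    · intro h
      exact Dvd.dvd.mul_left h 2
  refine Set.infinite_of_injective_forall_mem (f := fun k : ℕ => orbitOf (varX M1) (T (ζ k)))
    ?_ ?_
  · intro k l hkl
    have hmem : T (ζ l) ∈ orbitOf (varX M1) (T (ζ k)) := by
      have : T (ζ l) ∈ orbitOf (varX M1) (T (ζ l)) := by
        refine ⟨MulEquiv.refl _, isAlgAut_refl, ?_, ?_⟩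
        · ext x
          constructor
          · rintro ⟨y, hy, rfl⟩
            exact hy
          · intro hx
            exact ⟨x, hx, rfl⟩
        · ext x
          constructor
          · intro hx
            exact ⟨x, hx, rfl⟩
          · rintro ⟨y, hy, rfl⟩
            exact hy
      have hkl' : orbitOf (varX M1) (T (ζ k)) = orbitOf (varX M1) (T (ζ l)) := hkl
      rw [hkl']
      exact this
    obtain ⟨σ, -, hσX, hσ⟩ := hmem
    have hsub := inv_le_of_orbit (ζ k) (ζ l) (hζ2 k) σ hσX hσ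
    have hσX' : σ.symm '' varX M1 = varX M1 := by
      conv_lhs => rw [← hσX]
      rw [← Set.image_comp]
      ext x
      simp
    have hσ' : T (ζ k) = (T (ζ l)).map σ.symm.toMonoidHom := by
      rw [hσ]
      ext x
      constructor
      · intro hx
        exact ⟨σ x, ⟨x, hx, rfl⟩, by simp⟩
      · rintro ⟨_, ⟨y, hy, rfl⟩, rfl⟩
        simpa using hy
    have hsub' := inv_le_of_orbit (ζ l) (ζ k) (hζ2 l) σ.symm hσX' hσ'
    have h1 : 2 * l + 3 ∣ 2 * k + 3 := (hinv l _).1 (hsub ((hinv k _).2 dvd_rfl))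
    have h2 : 2 * k + 3 ∣ 2 * l + 3 := (hinv k _).1 (hsub' ((hinv l _).2 dvd_rfl))
    have := Nat.dvd_antisymm h1 h2
    omega
  · intro k
    exact ⟨T (ζ k), T_isMax (ζ k) (hζ2 k), rfl⟩

end Pool.Agent.Results.MP_629379_al.InfinitelyManyOrbits
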